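import Mathlib

section
set_option autoImplicit false

/-!
# MP_b63a06_co: cubelike graphs, additive combinatorics (helper65)

`V` is an additive group with `x + x = 0` for all `x`, `A` a finite set with `0 ∈ A`. A subgroup
`W` avoids `A` if `A ∩ W = {0}`.
-/

namespace Pool.Agent.Lib.MP_b63a06_co

section Group

variable {V : Type} [AddCommGroup V]

/-- every element has order at most two -/
def Two (V : Type) [AddCommGroup V] : Prop := ∀ x : V, x + x = 0

theorem Two.neg (h2 : Two V) (x : V) : -x = x := neg_eq_of_add_eq_zero_left (h2 x)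

theorem Two.cancel (h2 : Two V) (x y : V) : x + (x + y) = y := by
  rw [← add_assoc, h2 x, zero_add]

theorem Two.cancel' (h2 : Two V) (x y : V) : (y + x) + x = y := by
  rw [add_assoc, h2 x, add_zero]

theorem Two.eq_of_add (h2 : Two V) {x y : V} (h : x + y = 0) : x = y := by
  have h1 := h2.cancel' y x
  rw [h, zero_add] at h1
  exact h1.symm

/-- the subgroup generated by `W` and `u` -/
def ext (h2 : Two V) (W : AddSubgroup V) (u : V) : AddSubgroup V where
  carrier := {x | x ∈ W ∨ x + u ∈ W}
  zero_mem' := Or.inl W.zero_mem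
  add_mem' := by
    intro a b ha hb
    rcases ha with ha | ha <;> rcases hb with hb | hb
    · exact Or.inl (W.add_mem ha hb)
    · right
      have h := W.add_mem ha hb
      rwa [← add_assoc] at h
    · right
      have h := W.add_mem ha hb
      have e : a + u + b = a + b + u := by abel
      rwa [e] at h
    · left
      have h := W.add_mem ha hb
      have e : a + u + (b + u) = a + b + (u + u) := by abel
      rwa [e, h2 u, add_zero] at h
  neg_mem' := by
    intro a ha
    rw [h2.neg a]
    exact ha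

theorem mem_ext (h2 : Two V) (W : AddSubgroup V) (u x : V) :
    x ∈ ext h2 W u ↔ x ∈ W ∨ x + u ∈ W := Iff.rfl

theorem le_ext (h2 : Two V) (W : AddSubgroup V) (u : V) : W ≤ ext h2 W u := fun _ hx => Or.inl hx

theorem self_mem_ext (h2 : Two V) (W : AddSubgroup V) (u : V) : u ∈ ext h2 W u := by
  right
  rw [h2 u]
  exact W.zero_mem

/-- `W₁` is a hyperplane of `W` and `w ∈ W` is outside -/
structure Hyp (W W₁ : AddSubgroup V) (w : V) : Prop where
  le : W₁ ≤ W
  mem : w ∈ W
  notMem : w ∉ W₁
  or : ∀ x ∈ W, x ∈ W₁ ∨ x + w ∈ W₁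

variable [Finite V]

theorem card_ext (h2 : Two V) (W : AddSubgroup V) (u : V) (hu : u ∉ W) :
    Nat.card (ext h2 W u) = 2 * Nat.card W := by
  classical
  have e : (ext h2 W u : Set V) = (W : Set V) ∪ (fun x => x + u) '' (W : Set V) := by
    ext x
    simp only [Set.mem_union, Set.mem_image, SetLike.mem_coe, mem_ext]
    constructor
    · rintro (h | h)
      · exact Or.inl h
      · exact Or.inr ⟨x + u, h, h2.cancel' u x⟩
    · rintro (h | ⟨y, hy, rfl⟩)
      · exact Or.inl h
      · right
        rwa [h2.cancel' u y]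
  have hd : Disjoint (W : Set V) ((fun x => x + u) '' (W : Set V)) := by
    rw [Set.disjoint_left]
    rintro x hx ⟨y, hy, rfl⟩
    apply hu
    have h := W.add_mem hy hx
    rwa [h2.cancel y u] at h
  have h1 : Nat.card (ext h2 W u) = (ext h2 W u : Set V).ncard := rfl
  have h3 : Nat.card W = (W : Set V).ncard := rfl
  rw [h1, h3, e, Set.ncard_union_eq hd (Set.toFinite _) (Set.toFinite _),
    Set.ncard_image_of_injective _ (add_left_injective u)]
  ring

/-- hyperplanes of `W` which contain `z` and not `x` -/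
theorem exHyp (h2 : Two V) (W : AddSubgroup V) (z x : V) (hz : z ∈ W) (hx : x ∈ W) (hx0 : x ≠ 0)
    (hxz : x ≠ z) : ∃ W₁ : AddSubgroup V, Hyp W W₁ x ∧ z ∈ W₁ := by
  classical
  let P : AddSubgroup V → Prop := fun U => U ≤ W ∧ z ∈ U ∧ x ∉ U
  have hP : ∃ U, P U := by
    refine ⟨ext h2 ⊥ z, ?_, self_mem_ext h2 _ _, ?_⟩
    · rintro y (hy | hy)
      · rw [AddSubgroup.mem_bot] at hy
        rw [hy]
        exact W.zero_mem
      · rw [AddSubgroup.mem_bot] at hy
        rw [h2.eq_of_add hy]
        exact hz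
    · rintro (h | h)
      · exact hx0 (AddSubgroup.mem_bot.1 h)
      · exact hxz (h2.eq_of_add (AddSubgroup.mem_bot.1 h))
  have hfin : {U : AddSubgroup V | P U}.Finite := Set.toFinite _
  obtain ⟨U, hU, hmax⟩ := Set.exists_max_image {U : AddSubgroup V | P U} (fun U => Nat.card U)
    hfin hP
  obtain ⟨hUW, hzU, hxU⟩ := hU
  refine ⟨U, ⟨hUW, hx, hxU, ?_⟩, hzU⟩
  intro y hy
  by_contra hcon
  push Not at hcon
  obtain ⟨h1, h3⟩ := hcon
  have h4 : P (ext h2 U y) := by
    refine ⟨?_, le_ext h2 U y hzU, ?_⟩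
    · rintro v (hv | hv)
      · exact hUW hv
      · have h5 := W.add_mem (hUW hv) hy
        rwa [h2.cancel' y v] at h5
    · rintro (h5 | h5)
      · exact hxU h5
      · rw [add_comm] at h5
        exact h3 h5
  have h5 := hmax _ h4
  rw [card_ext h2 U y h1] at h5
  have h6 : 0 < Nat.card U := Nat.card_pos
  omega

end Group

section Main

variable {V : Type} [AddCommGroup V] [Fintype V] [DecidableEq V]

/-- `W` is a subgroup of maximal order which meets `A` only in `0` -/
structure MaxAv (A : Finset V) (W : AddSubgroup V) : Prop where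
  av : ∀ a ∈ A, a ∈ W → a = 0
  max : ∀ U : AddSubgroup V, (∀ a ∈ A, a ∈ U → a = 0) → Nat.card U ≤ Nat.card W

/-- `a` is the only element of `A` in its coset -/
def Sgl (A : Finset V) (W : AddSubgroup V) (a : V) : Prop := a ∈ A ∧ ∀ b ∈ A, b + a ∈ W → b = a

open Classical in
/-- elements of `A` in the coset of `v` -/
noncomputable def ms (A : Finset V) (W : AddSubgroup V) (v : V) : Finset V :=
  A.filter (fun a => a + v ∈ W)

/-- number of elements of `A` in the coset of `v` -/
noncomputable def mm (A : Finset V) (W : AddSubgroup V) (v : V) : ℕ := (ms A W v).card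

open Classical in
/-- the set `X` of a pair -/
noncomputable def XX (A : Finset V) (W : AddSubgroup V) (s t : V) : Finset V :=
  Finset.univ.filter (fun x => x ∈ W ∧ s + t + x ∈ A)

/-- a conflict -/
structure Conf (A : Finset V) (W : AddSubgroup V) (s t : V) : Prop where
  mx : MaxAv A W
  s1 : Sgl A W s
  t1 : Sgl A W t
  no : s + t ∉ A

variable (h2 : Two V) (A : Finset V) (h0 : (0 : V) ∈ A)

theorem mem_XX (W : AddSubgroup V) (s t x : V) : x ∈ XX A W s t ↔ x ∈ W ∧ s + t + x ∈ A := by
  unfold XX
  simp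

include h2 h0 in
/-- every coset of a maximal avoiding subgroup meets `A` -/
theorem cov {W : AddSubgroup V} (hW : MaxAv A W) (v : V) : ∃ a ∈ A, a + v ∈ W := by
  by_cases hv : v ∈ W
  · exact ⟨0, h0, by rwa [zero_add]⟩
  · by_contra hcon
    push Not at hcon
    have h1 := hW.max (ext h2 W v) (by
      rintro a ha (h | h)
      · exact hW.av a ha h
      · exact absurd h (hcon a ha))
    rw [card_ext h2 W v hv] at h1
    have h3 : 0 < Nat.card W := Nat.card_pos
    omega

include h2 in
/-- the flip -/
theorem flip {W : AddSubgroup V} (hW : MaxAv A W) {s : V} (hs : Sgl A W s) (hsW : s ∉ W)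
    {W₁ : AddSubgroup V} {w : V} (hy : Hyp W W₁ w) : MaxAv A (ext h2 W₁ (s + w)) := by
  have hsw : s + w ∉ W₁ := by
    intro h
    apply hsW
    have h1 := W.add_mem (hy.le h) hy.mem
    rwa [h2.cancel' w s] at h1
  constructor
  · rintro a ha (h | h)
    · exact hW.av a ha (hy.le h)
    · exfalso
      have h1 : a + s ∈ W := by
        have h3 := W.add_mem (hy.le h) hy.mem
        have e : a + (s + w) + w = a + s + (w + w) := by abel
        rwa [e, h2 w, add_zero] at h3
      have h4 := hs.2 a ha h1
      rw [h4, h2.cancel s w] at h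
      exact hy.notMem h
  · intro U hU
    have h1 := hW.max U hU
    have h3 : Nat.card (ext h2 W₁ w) = Nat.card W := by
      have e : ext h2 W₁ w = W := by
        apply le_antisymm
        · rintro x (hx | hx)
          · exact hy.le hx
          · have h3 := W.add_mem (hy.le hx) hy.mem
            rwa [h2.cancel' w x] at h3
        · intro x hx
          exact hy.or x hx
      rw [e]
    rw [card_ext h2 W₁ (s + w) hsw, ← card_ext h2 W₁ w hy.notMem, h3]
    exact h1

include h2 in
/-- a set of elements of `W` which meets all hyperplanes and does not contain `0` has at least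
three elements -/
theorem three (W : AddSubgroup V) (hWne : ∃ w ∈ W, w ≠ 0) (Y : Finset V) (hYW : ∀ y ∈ Y, y ∈ W)
    (hY0 : (0 : V) ∉ Y)
    (hmeet : ∀ (W₁ : AddSubgroup V) (w : V), Hyp W W₁ w → ∃ y ∈ Y, y ∈ W₁) : 3 ≤ Y.card := by
  by_contra hcon
  push Not at hcon
  have hcases : Y.card = 0 ∨ Y.card = 1 ∨ Y.card = 2 := by omega
  rcases hcases with h | h | h
  · obtain ⟨w, hw, hw0⟩ := hWne
    obtain ⟨W₁, hy, -⟩ := exHyp h2 W 0 w W.zero_mem hw hw0 hw0
    obtain ⟨y, hyY, -⟩ := hmeet W₁ w hy
    rw [Finset.card_eq_zero] at h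
    rw [h] at hyY
    exact absurd hyY (Finset.notMem_empty y)
  · obtain ⟨y, rfl⟩ := Finset.card_eq_one.1 h
    have hyW := hYW y (Finset.mem_singleton_self y)
    have hy0 : y ≠ 0 := fun h => hY0 (by rw [h]; exact Finset.mem_singleton_self 0)
    obtain ⟨W₁, hy, -⟩ := exHyp h2 W 0 y W.zero_mem hyW hy0 hy0
    obtain ⟨z, hz, hz1⟩ := hmeet W₁ y hy
    rw [Finset.mem_singleton] at hz
    rw [hz] at hz1
    exact hy.notMem hz1
  · obtain ⟨y, z, hyz, rfl⟩ := Finset.card_eq_two.1 h
    have hyW := hYW y (by simp)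
    have hzW := hYW z (by simp)
    have hy0 : y ≠ 0 := fun h => hY0 (by rw [h]; simp)
    have hz0 : z ≠ 0 := fun h => hY0 (by rw [h]; simp)
    have hne : y ≠ y + z := fun h => hz0 (by
      have h1 := h2.cancel y z
      rw [← h, h2 y] at h1
      exact h1.symm)
    obtain ⟨W₁, hy, hyz1⟩ := exHyp h2 W (y + z) y (W.add_mem hyW hzW) hyW hy0 hne
    obtain ⟨v, hv, hv1⟩ := hmeet W₁ y hy
    rw [Finset.mem_insert, Finset.mem_singleton] at hv
    rcases hv with hv | hv
    · rw [hv] at hv1
      exact hy.notMem hv1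
    · rw [hv] at hv1
      have h1 := W₁.add_mem hyz1 hv1
      rw [h2.cancel' z y] at h1
      exact hy.notMem h1

include h2 h0 in
/-- basic facts on a conflict -/
theorem Conf.basic {W : AddSubgroup V} {s t : V} (hc : Conf A W s t) :
    s ∉ W ∧ t ∉ W ∧ (∃ w ∈ W, w ≠ 0) := by
  have hs0 : s ∉ W := by
    intro h
    have h1 := hc.mx.av s hc.s1.1 h
    apply hc.no
    rw [h1, zero_add]
    exact hc.t1.1
  have ht0 : t ∉ W := by
    intro h
    have h1 := hc.mx.av t hc.t1.1 h
    apply hc.no
    rw [h1, add_zero]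
    exact hc.s1.1
  refine ⟨hs0, ht0, ?_⟩
  by_contra hcon
  push Not at hcon
  have hst : s + t ≠ 0 := fun h => hc.no (by rw [h]; exact h0)
  have h1 := hc.mx.max (ext h2 ⊥ (s + t)) (by
    rintro a ha (h | h)
    · exact AddSubgroup.mem_bot.1 h
    · have h3 := h2.eq_of_add (AddSubgroup.mem_bot.1 h)
      rw [h3] at ha
      exact absurd ha hc.no)
  rw [card_ext h2 ⊥ (s + t) (fun h => hst (AddSubgroup.mem_bot.1 h))] at h1
  have h3 : W = ⊥ := by
    rw [AddSubgroup.eq_bot_iff_forall]
    exact hcon
  rw [h3] at h1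
  have h4 : 0 < Nat.card (⊥ : AddSubgroup V) := Nat.card_pos
  omega

include h2 h0 in
/-- `X` meets all hyperplanes -/
theorem Conf.meet {W : AddSubgroup V} {s t : V} (hc : Conf A W s t) (W₁ : AddSubgroup V) (w : V)
    (hy : Hyp W W₁ w) : ∃ x ∈ XX A W s t, x ∈ W₁ := by
  obtain ⟨hs, ht, -⟩ := hc.basic h2 A h0
  obtain ⟨a, ha, h | h⟩ := cov h2 A h0 (flip h2 A hc.mx hc.s1 hs hy) (t + w)
  · exfalso
    have h1 : a + t ∈ W := by
      have h3 := W.add_mem (hy.le h) hy.mem
      have e : a + (t + w) + w = a + t + (w + w) := by abel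
      rwa [e, h2 w, add_zero] at h3
    have h3 := hc.t1.2 a ha h1
    rw [h3, h2.cancel t w] at h
    exact hy.notMem h
  · have e : a + (t + w) + (s + w) = a + (s + t) + (w + w) := by abel
    rw [e, h2 w, add_zero] at h
    refine ⟨a + (s + t), ?_, h⟩
    rw [mem_XX]
    refine ⟨hy.le h, ?_⟩
    have e1 : s + t + (a + (s + t)) = a := by
      have e2 : s + t + (a + (s + t)) = a + ((s + t) + (s + t)) := by abel
      rw [e2, h2 (s + t), add_zero]
    rw [e1]
    exact ha

include h2 h0 in
theorem Conf.X3 {W : AddSubgroup V} {s t : V} (hc : Conf A W s t) : 3 ≤ (XX A W s t).card := by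
  obtain ⟨-, -, hne⟩ := hc.basic h2 A h0
  refine three h2 W hne _ ?_ ?_ (hc.meet h2 A h0)
  · intro y hy
    rw [mem_XX] at hy
    exact hy.1
  · rw [mem_XX]
    rintro ⟨-, h⟩
    rw [add_zero] at h
    exact hc.no h

theorem mem_ms (W : AddSubgroup V) (v a : V) : a ∈ ms A W v ↔ a ∈ A ∧ a + v ∈ W := by
  unfold ms
  simp

include h2 in
/-- `m` is constant on cosets -/
theorem mm_congr (W : AddSubgroup V) {u v : V} (h : u + v ∈ W) : mm A W u = mm A W v := by
  unfold mm
  congr 1
  ext a
  rw [mem_ms, mem_ms]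
  have e1 : a + u + (u + v) = a + v := by
    have e : a + u + (u + v) = a + v + (u + u) := by abel
    rw [e, h2 u, add_zero]
  have e2 : a + v + (u + v) = a + u := by
    have e : a + v + (u + v) = a + u + (v + v) := by abel
    rw [e, h2 v, add_zero]
  constructor
  · rintro ⟨ha, hu⟩
    refine ⟨ha, ?_⟩
    rw [← e1]
    exact W.add_mem hu h
  · rintro ⟨ha, hv⟩
    refine ⟨ha, ?_⟩
    rw [← e2]
    exact W.add_mem hv h

include h2 in
theorem card_XX (W : AddSubgroup V) (s t : V) : (XX A W s t).card = mm A W (s + t) := by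
  unfold mm
  refine Finset.card_bij (fun x _ => s + t + x) ?_ ?_ ?_
  · intro x hx
    rw [mem_XX] at hx
    rw [mem_ms]
    refine ⟨hx.2, ?_⟩
    have e : s + t + x + (s + t) = x + ((s + t) + (s + t)) := by abel
    rw [e, h2 (s + t), add_zero]
    exact hx.1
  · intro x _ y _ hxy
    exact add_left_cancel hxy
  · intro a ha
    rw [mem_ms] at ha
    refine ⟨a + (s + t), ?_, ?_⟩
    · rw [mem_XX]
      refine ⟨ha.2, ?_⟩
      have e : s + t + (a + (s + t)) = a + ((s + t) + (s + t)) := by abel
      rw [e, h2 (s + t), add_zero]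
      exact ha.1
    · have e : s + t + (a + (s + t)) = a + ((s + t) + (s + t)) := by abel
      rw [e, h2 (s + t), add_zero]

include h2 h0 in
theorem mm_pos {W : AddSubgroup V} (hW : MaxAv A W) (v : V) : 1 ≤ mm A W v := by
  obtain ⟨a, ha, hav⟩ := cov h2 A h0 hW v
  exact Finset.card_pos.2 ⟨a, (mem_ms A W v a).2 ⟨ha, hav⟩⟩

include h2 h0 in
/-- transport of a single element -/
theorem trans1 {W : AddSubgroup V} (hW : MaxAv A W) {s : V} (hs : Sgl A W s) (hsW : s ∉ W)
    (α β : V) (hαu : ∀ b ∈ A, b + α ∈ W → b = α) (hβ : β + α + s ∈ W)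
    (hβu : ∀ b ∈ A, b + α + s ∈ W → b = β) : β = α + s := by
  by_contra hne
  have hx0 : β + α + s ≠ 0 := by
    intro h
    apply hne
    rw [add_assoc] at h
    exact h2.eq_of_add h
  obtain ⟨W₁, hy, -⟩ := exHyp h2 W 0 (β + α + s) W.zero_mem hβ hx0 hx0
  set x := β + α + s with hx
  obtain ⟨a, ha, h | h⟩ := cov h2 A h0 (flip h2 A hW hs hsW hy) (α + x)
  · have h1 : a + α ∈ W := by
      have h3 := W.add_mem (hy.le h) hy.mem
      have e : a + (α + x) + x = a + α + (x + x) := by abel
      rwa [e, h2 x, add_zero] at h3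
    rw [hαu a ha h1, h2.cancel α x] at h
    exact hy.notMem h
  · have e : a + (α + x) + (s + x) = a + α + s + (x + x) := by abel
    rw [e, h2 x, add_zero] at h
    rw [hβu a ha (hy.le h)] at h
    exact hy.notMem h

include h2 h0 in
/-- the heart of the matter -/
theorem core {W : AddSubgroup V} {s t : V} (hc : Conf A W s t)
    (hmin : ∀ (W' : AddSubgroup V) (s' t' : V), Conf A W' s' t' →
      (XX A W s t).card ≤ (XX A W' s' t').card) (y : V)
    (m1 : mm A W y = 1) (m2 : mm A W (y + s) = 1) (m3 : mm A W (y + t) = 1)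
    (m4 : mm A W (y + s + t) ≤ 2) : False := by
  obtain ⟨hs, ht, hne⟩ := hc.basic h2 A h0
  have hW := hc.mx
  -- the three single elements
  obtain ⟨α, hα⟩ := Finset.card_eq_one.1 m1
  obtain ⟨β, hβ⟩ := Finset.card_eq_one.1 m2
  obtain ⟨γ, hγ⟩ := Finset.card_eq_one.1 m3
  have hα1 := (mem_ms A W y α).1 (by rw [hα]; exact Finset.mem_singleton_self α)
  have hβ1 := (mem_ms A W (y + s) β).1 (by rw [hβ]; exact Finset.mem_singleton_self β)
  have hγ1 := (mem_ms A W (y + t) γ).1 (by rw [hγ]; exact Finset.mem_singleton_self γ)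
  have hαu : ∀ b ∈ A, b + α ∈ W → b = α := by
    intro b hb hbα
    have h1 : b ∈ ms A W y := by
      rw [mem_ms]
      refine ⟨hb, ?_⟩
      have h3 := W.add_mem hbα hα1.2
      have e : b + α + (α + y) = b + y + (α + α) := by abel
      rwa [e, h2 α, add_zero] at h3
    rw [hα, Finset.mem_singleton] at h1
    exact h1
  have hβu : ∀ b ∈ A, b + α + s ∈ W → b = β := by
    intro b hb hbα
    have h1 : b ∈ ms A W (y + s) := by
      rw [mem_ms]
      refine ⟨hb, ?_⟩
      have h3 := W.add_mem hbα hα1.2
      have e : b + α + s + (α + y) = b + (y + s) + (α + α) := by abel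
      rwa [e, h2 α, add_zero] at h3
    rw [hβ, Finset.mem_singleton] at h1
    exact h1
  have hγu : ∀ b ∈ A, b + α + t ∈ W → b = γ := by
    intro b hb hbα
    have h1 : b ∈ ms A W (y + t) := by
      rw [mem_ms]
      refine ⟨hb, ?_⟩
      have h3 := W.add_mem hbα hα1.2
      have e : b + α + t + (α + y) = b + (y + t) + (α + α) := by abel
      rwa [e, h2 α, add_zero] at h3
    rw [hγ, Finset.mem_singleton] at h1
    exact h1
  have hβW : β + α + s ∈ W := by
    have h3 := W.add_mem hβ1.2 hα1.2
    have e : β + (y + s) + (α + y) = β + α + s + (y + y) := by abel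
    rwa [e, h2 y, add_zero] at h3
  have hγW : γ + α + t ∈ W := by
    have h3 := W.add_mem hγ1.2 hα1.2
    have e : γ + (y + t) + (α + y) = γ + α + t + (y + y) := by abel
    rwa [e, h2 y, add_zero] at h3
  have eβ : β = α + s := trans1 h2 A h0 hW hc.s1 hs α β hαu hβW hβu
  have eγ : γ = α + t := trans1 h2 A h0 hW hc.t1 ht α γ hαu hγW hγu
  rw [eβ] at hβu hβ1
  rw [eγ] at hγu hγ1
  -- the fourth coset
  have hYc : (XX A W (α + s) t).card ≤ 2 := by
    rw [card_XX h2 A]
    have e : α + s + t + (y + s + t) ∈ W := by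
      have e1 : α + s + t + (y + s + t) = α + y + (s + s) + (t + t) := by abel
      rw [e1, h2 s, h2 t, add_zero, add_zero]
      exact hα1.2
    rw [mm_congr h2 A W e]
    exact m4
  have hY0 : (0 : V) ∈ XX A W (α + s) t := by
    by_contra hcon
    have h3 := three h2 W hne (XX A W (α + s) t) (fun y hy => ((mem_XX A W _ _ y).1 hy).1) hcon ?_
    · omega
    · intro W₁ w hy
      obtain ⟨a, ha, h | h⟩ := cov h2 A h0 (flip h2 A hW hc.t1 ht hy) (α + s + w)
      · exfalso
        have h1 : a + α + s ∈ W := by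
          have h3 := W.add_mem (hy.le h) hy.mem
          have e : a + (α + s + w) + w = a + α + s + (w + w) := by abel
          rwa [e, h2 w, add_zero] at h3
        rw [hβu a ha h1, h2.cancel (α + s) w] at h
        exact hy.notMem h
      · have e : a + (α + s + w) + (t + w) = a + (α + s + t) + (w + w) := by abel
        rw [e, h2 w, add_zero] at h
        refine ⟨a + (α + s + t), ?_, h⟩
        rw [mem_XX]
        refine ⟨hy.le h, ?_⟩
        have e1 : α + s + t + (a + (α + s + t)) = a + ((α + s + t) + (α + s + t)) := by abel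
        rw [e1, h2 (α + s + t), add_zero]
        exact ha
  -- a second element of `Y`
  have hx' : ∃ x' ∈ W, ∀ z ∈ XX A W (α + s) t, z = 0 ∨ z = x' := by
    by_cases hE : ∃ x' ∈ XX A W (α + s) t, x' ≠ 0
    · obtain ⟨x', hx', hx'0⟩ := hE
      refine ⟨x', ((mem_XX A W _ _ x').1 hx').1, fun z hz => ?_⟩
      by_contra hcon
      push Not at hcon
      have h1 : ({0, x', z} : Finset V) ⊆ XX A W (α + s) t := by
        intro v hv
        simp only [Finset.mem_insert, Finset.mem_singleton] at hv
        rcases hv with rfl | rfl | rfl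
        · exact hY0
        · exact hx'
        · exact hz
      have h3 := Finset.card_le_card h1
      rw [Finset.card_eq_three.2 ⟨0, x', z, Ne.symm hx'0, Ne.symm hcon.1, Ne.symm hcon.2, rfl⟩]
        at h3
      omega
    · push Not at hE
      exact ⟨0, W.zero_mem, fun z hz => Or.inl (hE z hz)⟩
  obtain ⟨x', hx'W, hx'Y⟩ := hx'
  have hX3 := hc.X3 h2 A h0
  obtain ⟨x, hxX, hxx'⟩ := Finset.exists_mem_ne (by omega : 1 < (XX A W s t).card) x'
  have hxX' := (mem_XX A W s t x).1 hxX
  have hx0 : x ≠ 0 := by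
    intro h
    rw [h, add_zero] at hxX'
    exact hc.no hxX'.2
  obtain ⟨W₁, hy, hx'1⟩ := exHyp h2 W x' x hx'W hxX'.1 hx0 hxx'
  -- the new conflict
  have epq : α + s + (α + t) = s + t := by
    have e : α + s + (α + t) = s + t + (α + α) := by abel
    rw [e, h2 α, add_zero]
  have hc' : Conf A (ext h2 W₁ (s + x)) (α + s) (α + t) := by
    refine ⟨flip h2 A hW hc.s1 hs hy, ⟨hβ1.1, ?_⟩, ⟨hγ1.1, ?_⟩, ?_⟩
    · rintro b hb (h | h)
      · refine hβu b hb ?_
        rw [add_assoc]
        exact hy.le h
      · exfalso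
        have e : b + (α + s) + (s + x) = b + α + x + (s + s) := by abel
        rw [e, h2 s, add_zero] at h
        have h1 : b + α ∈ W := by
          have h3 := W.add_mem (hy.le h) hy.mem
          rwa [h2.cancel' x (b + α)] at h3
        rw [hαu b hb h1, h2 α, zero_add] at h
        exact hy.notMem h
    · rintro b hb (h | h)
      · refine hγu b hb ?_
        rw [add_assoc]
        exact hy.le h
      · exfalso
        have e : b + (α + t) + (s + x) = b + (α + s + t) + x := by abel
        rw [e] at h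
        have h1 : b + (α + s + t) ∈ W := by
          have h3 := W.add_mem (hy.le h) hy.mem
          rwa [h2.cancel' x (b + (α + s + t))] at h3
        have h3 : b + (α + s + t) ∈ XX A W (α + s) t := by
          rw [mem_XX]
          refine ⟨h1, ?_⟩
          have e1 : α + s + t + (b + (α + s + t)) = b + ((α + s + t) + (α + s + t)) := by abel
          rw [e1, h2 (α + s + t), add_zero]
          exact hb
        have h4 : b + (α + s + t) ∈ W₁ := by
          rcases hx'Y _ h3 with h5 | h5
          · rw [h5]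
            exact W₁.zero_mem
          · rw [h5]
            exact hx'1
        have h5 := W₁.add_mem h4 h
        rw [h2.cancel (b + (α + s + t)) x] at h5
        exact hy.notMem h5
    · rw [epq]
      exact hc.no
  have h5 := hmin _ _ _ hc'
  have h6 : XX A (ext h2 W₁ (s + x)) (α + s) (α + t) ⊂ XX A W s t := by
    rw [Finset.ssubset_iff_of_subset]
    · refine ⟨x, hxX, ?_⟩
      rw [mem_XX]
      rintro ⟨h | h, -⟩
      · exact hy.notMem h
      · have e : x + (s + x) = s + (x + x) := by abel
        rw [e, h2 x, add_zero] at h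
        exact hs (hy.le h)
    · intro v hv
      rw [mem_XX, epq] at hv
      rw [mem_XX]
      refine ⟨?_, hv.2⟩
      rcases hv.1 with h | h
      · exact hy.le h
      · exfalso
        have e : s + t + v + t = v + s + (t + t) := by abel
        have h1 : s + t + v + t ∈ W := by
          rw [e, h2 t, add_zero]
          have h3 := W.add_mem (hy.le h) hy.mem
          have e1 : v + (s + x) + x = v + s + (x + x) := by abel
          rwa [e1, h2 x, add_zero] at h3
        have h3 := hc.t1.2 _ hv.2 h1
        have h4 : v = s := by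
          have e1 : s + t + v = t + (s + v) := by abel
          rw [e1] at h3
          have h7 : s + v = 0 := by
            have h8 := h2.cancel t (s + v)
            rw [h3, h2 t] at h8
            exact h8.symm
          exact (h2.eq_of_add h7).symm
        rw [h4, h2.cancel s x] at h
        exact hy.notMem h
  have h7 := Finset.card_lt_card h6
  omega

include h2 h0 in
theorem six {W : AddSubgroup V} {s t : V} (hc : Conf A W s t)
    (hmin : ∀ (W' : AddSubgroup V) (s' t' : V), Conf A W' s' t' →
      (XX A W s t).card ≤ (XX A W' s' t').card) (y : V) :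
    6 ≤ mm A W y + mm A W (y + s) + mm A W (y + t) + mm A W (y + s + t) := by
  have p1 := mm_pos h2 A h0 hc.mx y
  have p2 := mm_pos h2 A h0 hc.mx (y + s)
  have p3 := mm_pos h2 A h0 hc.mx (y + t)
  have p4 := mm_pos h2 A h0 hc.mx (y + s + t)
  have c1 := core h2 A h0 hc hmin y
  have c2 := core h2 A h0 hc hmin (y + s)
  have c3 := core h2 A h0 hc hmin (y + t)
  have c4 := core h2 A h0 hc hmin (y + s + t)
  rw [h2.cancel' s y] at c2
  have e1 : y + t + s = y + s + t := by abel
  have e2 : y + s + t + s = y + t := by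
    have e : y + s + t + s = y + t + (s + s) := by abel
    rw [e, h2 s, add_zero]
  rw [e1, h2.cancel' t y, h2.cancel' t (y + s)] at c3
  rw [e2, h2.cancel' t (y + s), h2.cancel' t y] at c4
  by_contra hcon
  push Not at hcon
  have h : (mm A W y = 1 ∧ mm A W (y + s) = 1 ∧ mm A W (y + t) = 1 ∧ mm A W (y + s + t) ≤ 2) ∨
      (mm A W (y + s) = 1 ∧ mm A W y = 1 ∧ mm A W (y + s + t) = 1 ∧ mm A W (y + t) ≤ 2) ∨
      (mm A W (y + t) = 1 ∧ mm A W (y + s + t) = 1 ∧ mm A W y = 1 ∧ mm A W (y + s) ≤ 2) ∨
      (mm A W (y + s + t) = 1 ∧ mm A W (y + t) = 1 ∧ mm A W (y + s) = 1 ∧ mm A W y ≤ 2) := by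
    omega
  rcases h with ⟨a, b, c, d⟩ | ⟨a, b, c, d⟩ | ⟨a, b, c, d⟩ | ⟨a, b, c, d⟩
  · exact c1 a b c d
  · exact c2 a b c d
  · exact c3 a b c d
  · exact c4 a b c d

end Main

end Pool.Agent.Lib.MP_b63a06_co
end

section
set_option autoImplicit false

/-!
# MP_b63a06_co: cubelike graphs, counting (helper65)
-/

namespace Pool.Agent.Lib.MP_b63a06_co

variable {V : Type} [AddCommGroup V] [Fintype V] [DecidableEq V]
variable (h2 : Two V) (A : Finset V) (h0 : (0 : V) ∈ A)

open Classical in
include h2 in
/-- a coset has `|W|` elements -/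
theorem card_coset (W : AddSubgroup V) (a : V) :
    (Finset.univ.filter (fun v => a + v ∈ W)).card = Nat.card W := by
  have h1 : Nat.card W = (Finset.univ.filter (fun v => v ∈ W)).card := by
    rw [Nat.card_eq_fintype_card, Fintype.card_subtype]
  rw [h1]
  refine Finset.card_bij (fun v _ => a + v) ?_ ?_ ?_
  · intro v hv
    simp only [Finset.mem_filter, Finset.mem_univ, true_and] at hv ⊢
    exact hv
  · intro u _ v _ huv
    exact add_left_cancel huv
  · intro v hv
    refine ⟨a + v, ?_, h2.cancel a v⟩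
    simp only [Finset.mem_filter, Finset.mem_univ, true_and] at hv ⊢
    rwa [h2.cancel a v]

include h2 in
theorem sum_mm (W : AddSubgroup V) : ∑ v : V, mm A W v = A.card * Nat.card W := by
  classical
  have h1 : ∀ v : V, mm A W v = ∑ a ∈ A, if a + v ∈ W then 1 else 0 := by
    intro v
    rw [Finset.sum_ite, Finset.sum_const_zero, add_zero, Finset.sum_const, smul_eq_mul, mul_one]
    unfold mm
    congr 1
  simp only [h1]
  rw [Finset.sum_comm]
  have h3 : ∀ a ∈ A, (∑ v : V, if a + v ∈ W then 1 else 0) = Nat.card W := by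
    intro a _
    rw [← card_coset h2 W a, Finset.sum_ite, Finset.sum_const_zero, add_zero, Finset.sum_const,
      smul_eq_mul, mul_one]
  rw [Finset.sum_congr rfl h3, Finset.sum_const, smul_eq_mul]

theorem card_V (W : AddSubgroup V) : Fintype.card V = W.index * Nat.card W := by
  rw [← Nat.card_eq_fintype_card, mul_comm]
  exact (AddSubgroup.card_mul_index W).symm

include h2 h0 in
/-- there is a minimal conflict -/
theorem exMin (h : ∃ (W : AddSubgroup V) (s t : V), Conf A W s t) :
    ∃ (W : AddSubgroup V) (s t : V), Conf A W s t ∧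
      ∀ (W' : AddSubgroup V) (s' t' : V), Conf A W' s' t' →
        (XX A W s t).card ≤ (XX A W' s' t').card := by
  classical
  let P : ℕ → Prop := fun n => ∃ (W : AddSubgroup V) (s t : V), Conf A W s t ∧
    (XX A W s t).card = n
  have hP : ∃ n, P n := by
    obtain ⟨W, s, t, hc⟩ := h
    exact ⟨_, W, s, t, hc, rfl⟩
  obtain ⟨W, s, t, hc, hn⟩ := Nat.find_spec hP
  refine ⟨W, s, t, hc, fun W' s' t' hc' => ?_⟩
  rw [hn]
  exact Nat.find_min' hP ⟨W', s', t', hc', rfl⟩

include h2 h0 in
/-- a conflict forces many elements -/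
theorem many (h : ∃ (W : AddSubgroup V) (s t : V), Conf A W s t) :
    ∀ W : AddSubgroup V, MaxAv A W → 3 * W.index ≤ 2 * A.card := by
  intro U hU
  obtain ⟨W, s, t, hc, hmin⟩ := exMin h2 A h0 h
  have hcard : Nat.card U = Nat.card W :=
    le_antisymm (hc.mx.max U hU.av) (hU.max W hc.mx.av)
  have hpos : 0 < Nat.card W := Nat.card_pos
  have hind : U.index = W.index := by
    have h1 := card_V U
    have h3 := card_V W
    rw [h3, hcard] at h1
    exact (Nat.eq_of_mul_eq_mul_right hpos h1).symm
  rw [hind]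
  have hs : ∀ u : V, ∑ v : V, mm A W (v + u) = A.card * Nat.card W := by
    intro u
    rw [← sum_mm h2 A W]
    exact Equiv.sum_comp (Equiv.addRight u) (fun v => mm A W v)
  have h1 : ∑ _v : V, 6 ≤ ∑ v : V, (mm A W v + mm A W (v + s) + mm A W (v + t) +
      mm A W (v + s + t)) := Finset.sum_le_sum fun v _ => six h2 A h0 hc hmin v
  rw [Finset.sum_const, Finset.sum_add_distrib, Finset.sum_add_distrib, Finset.sum_add_distrib,
    sum_mm h2 A W, hs s, hs t] at h1
  have h3 : ∑ v : V, mm A W (v + s + t) = A.card * Nat.card W := by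
    rw [← hs (s + t)]
    refine Finset.sum_congr rfl fun v _ => ?_
    rw [add_assoc]
  rw [h3, Finset.card_univ, card_V W, smul_eq_mul] at h1
  have h4 : (3 * W.index) * Nat.card W ≤ (2 * A.card) * Nat.card W := by
    have e1 : W.index * Nat.card W * 6 = 2 * ((3 * W.index) * Nat.card W) := by ring
    have e2 : A.card * Nat.card W + A.card * Nat.card W + A.card * Nat.card W +
      A.card * Nat.card W = 2 * ((2 * A.card) * Nat.card W) := by ring
    rw [e1, e2] at h1
    omega
  exact Nat.le_of_mul_le_mul_right h4 hpos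

open Classical in
/-- the single elements -/
noncomputable def CC (A : Finset V) (W : AddSubgroup V) : Finset V := A.filter (fun a => Sgl A W a)

theorem mem_CC (W : AddSubgroup V) (a : V) : a ∈ CC A W ↔ Sgl A W a := by
  unfold CC
  simp only [Finset.mem_filter]
  exact ⟨fun h => h.2, fun h => ⟨h.1, h⟩⟩

include h2 h0 in
/-- the basic count; `B` is any set of elements with `m ≥ 3` -/
theorem count {W : AddSubgroup V} (hW : MaxAv A W) (B : Finset V) (hB : ∀ v ∈ B, 3 ≤ mm A W v) :
    2 * Fintype.card V + B.card ≤ (A.card + (CC A W).card) * Nat.card W := by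
  classical
  let P : Finset V := Finset.univ.filter (fun v => mm A W v = 1)
  have hP : P.card ≤ (CC A W).card * Nat.card W := by
    have h1 : P ⊆ (CC A W).biUnion (fun a => Finset.univ.filter (fun v => a + v ∈ W)) := by
      intro v hv
      simp only [P, Finset.mem_filter, Finset.mem_univ, true_and] at hv
      obtain ⟨a, ha⟩ := Finset.card_eq_one.1 hv
      have ha1 := (mem_ms A W v a).1 (by rw [ha]; exact Finset.mem_singleton_self a)
      rw [Finset.mem_biUnion]
      refine ⟨a, ?_, by simpa using ha1.2⟩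
      rw [mem_CC]
      refine ⟨ha1.1, fun b hb hba => ?_⟩
      have h3 : b ∈ ms A W v := by
        rw [mem_ms]
        refine ⟨hb, ?_⟩
        have h4 := W.add_mem hba ha1.2
        have e : b + a + (a + v) = b + v + (a + a) := by abel
        rwa [e, h2 a, add_zero] at h4
      rw [ha, Finset.mem_singleton] at h3
      exact h3
    refine (Finset.card_le_card h1).trans (Finset.card_biUnion_le.trans ?_)
    rw [Finset.sum_congr rfl (fun a _ => card_coset h2 W a), Finset.sum_const, smul_eq_mul]
  have h1 : ∑ v : V, (2 + if v ∈ B then 1 else 0) ≤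
      ∑ v : V, (mm A W v + if v ∈ P then 1 else 0) := by
    refine Finset.sum_le_sum fun v _ => ?_
    have p1 := mm_pos h2 A h0 hW v
    by_cases hv : v ∈ B
    · have h3 := hB v hv
      rw [if_pos hv]
      omega
    · rw [if_neg hv]
      by_cases hv1 : mm A W v = 1
      · have h3 : v ∈ P := by simp [P, hv1]
        rw [if_pos h3]
        omega
      · omega
  rw [Finset.sum_add_distrib, Finset.sum_add_distrib, sum_mm h2 A W, Finset.sum_const,
    Finset.card_univ, smul_eq_mul, Finset.sum_ite_mem, Finset.sum_ite_mem, Finset.univ_inter,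
    Finset.univ_inter, Finset.sum_const, Finset.sum_const, smul_eq_mul, smul_eq_mul] at h1
  have e : (A.card + (CC A W).card) * Nat.card W =
    A.card * Nat.card W + (CC A W).card * Nat.card W := by ring
  rw [e]
  omega

include h2 h0 in
theorem countA {W : AddSubgroup V} (hW : MaxAv A W) : 2 * W.index ≤ A.card + (CC A W).card := by
  have h1 := count h2 A h0 hW ∅ (by simp)
  have hpos : 0 < Nat.card W := Nat.card_pos
  rw [Finset.card_empty, card_V W, add_zero, ← mul_assoc] at h1
  exact Nat.le_of_mul_le_mul_right h1 hpos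

include h2 h0 in
/-- no triangle: if all pairs of nonzero single elements are conflicts -/
theorem countB {W : AddSubgroup V} (hW : MaxAv A W)
    (hno : ∀ s ∈ CC A W, ∀ t ∈ CC A W, s ≠ 0 → t ≠ 0 → s ≠ t → s + t ∉ A)
    (h3 : 3 ≤ (CC A W).card) : 2 * W.index ≤ A.card + 2 := by
  classical
  have h0C : (0 : V) ∈ CC A W := by
    rw [mem_CC]
    refine ⟨h0, fun b hb hb0 => ?_⟩
    rw [add_zero] at hb0
    exact hW.av b hb hb0
  -- the element c₀
  obtain ⟨c, hcC, hc0⟩ := Finset.exists_mem_ne (by omega : 1 < (CC A W).card) (0 : V)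
  let C' : Finset V := ((CC A W).erase 0).erase c
  have hC' : C'.card = (CC A W).card - 2 := by
    have h4 : c ∈ (CC A W).erase 0 := Finset.mem_erase.2 ⟨hc0, hcC⟩
    rw [Finset.card_erase_of_mem h4, Finset.card_erase_of_mem h0C]
    omega
  let B : Finset V := C'.biUnion (fun d => Finset.univ.filter (fun v => c + d + v ∈ W))
  have hconf : ∀ d ∈ C', Conf A W c d := by
    intro d hd
    simp only [C', Finset.mem_erase] at hd
    exact ⟨hW, (mem_CC A W c).1 hcC, (mem_CC A W d).1 hd.2.2,
      hno c hcC d hd.2.2 hc0 hd.2.1 (Ne.symm hd.1)⟩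
  have hB : ∀ v ∈ B, 3 ≤ mm A W v := by
    intro v hv
    simp only [B, Finset.mem_biUnion, Finset.mem_filter, Finset.mem_univ, true_and] at hv
    obtain ⟨d, hd, hv⟩ := hv
    rw [← mm_congr h2 A W hv, ← card_XX h2 A]
    exact (hconf d hd).X3 h2 A h0
  have hBc : B.card = ((CC A W).card - 2) * Nat.card W := by
    have hdis : (C' : Set V).PairwiseDisjoint
        (fun d => Finset.univ.filter (fun v => c + d + v ∈ W)) := by
      intro d hd e he hde
      change Disjoint (Finset.univ.filter (fun v => c + d + v ∈ W))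
        (Finset.univ.filter (fun v => c + e + v ∈ W))
      rw [Finset.disjoint_left]
      intro v hv hv'
      simp only [Finset.mem_filter, Finset.mem_univ, true_and] at hv hv'
      have h4 := W.add_mem hv hv'
      have e1 : c + d + v + (c + e + v) = d + e + (c + c) + (v + v) := by abel
      rw [e1, h2 c, h2 v, add_zero, add_zero] at h4
      have hd' : d ∈ C' := hd
      have he' : e ∈ C' := he
      exact hde ((hconf e he').t1.2 d (hconf d hd').t1.1 h4)
    rw [Finset.card_biUnion hdis, Finset.sum_congr rfl (fun d _ => card_coset h2 W (c + d)),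
      Finset.sum_const, smul_eq_mul, hC']
  have h4 := count h2 A h0 hW B hB
  have hpos : 0 < Nat.card W := Nat.card_pos
  rw [hBc, card_V W] at h4
  obtain ⟨m, hm⟩ : ∃ m, (CC A W).card = m + 2 := ⟨(CC A W).card - 2, by omega⟩
  rw [hm] at h4
  have e1 : m + 2 - 2 = m := by omega
  rw [e1] at h4
  have h5 : 2 * W.index * Nat.card W ≤ (A.card + 2) * Nat.card W := by
    have e2 : (A.card + (m + 2)) * Nat.card W = (A.card + 2) * Nat.card W + m * Nat.card W := by
      ring
    rw [e2, ← mul_assoc] at h4
    omega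
  exact Nat.le_of_mul_le_mul_right h5 hpos

end Pool.Agent.Lib.MP_b63a06_co
end

section
set_option autoImplicit false

/-!
# MP_b63a06_co: cubelike graphs, from subsets to graphs (helper65)
-/

namespace Pool.Agent.Lib.MP_b63a06_co

variable {V : Type} [AddCommGroup V] [Fintype V] [DecidableEq V]

/-- a subgroup of maximal order avoiding `A` -/
theorem exMaxAv (A : Finset V) : ∃ W : AddSubgroup V, MaxAv A W := by
  classical
  have hfin : Finite (AddSubgroup V) :=
    Finite.of_injective (fun U : AddSubgroup V => (U : Set V)) SetLike.coe_injective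
  have hne : Nonempty {U : AddSubgroup V // ∀ a ∈ A, a ∈ U → a = 0} :=
    ⟨⟨⊥, fun a _ h => (AddSubgroup.mem_bot).1 h⟩⟩
  obtain ⟨W, hW⟩ := Finite.exists_max
    (fun U : {U : AddSubgroup V // ∀ a ∈ A, a ∈ U → a = 0} => Nat.card U.1)
  exact ⟨W.1, W.2, fun U hU => hW ⟨U, hU⟩⟩

/-- the neighbourhood of `0`, with `0` -/
def nbh (G : SimpleGraph V) [DecidableRel G.Adj] : Finset V := insert 0 (G.neighborFinset 0)

theorem mem_nbh {S : Set V} {G : SimpleGraph V} [DecidableRel G.Adj]
    (hG : ∀ x y, G.Adj x y ↔ x + y ∈ S) (a : V) : a ∈ nbh G ↔ a = 0 ∨ a ∈ S := by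
  unfold nbh
  rw [Finset.mem_insert, SimpleGraph.mem_neighborFinset, hG, zero_add]

theorem card_nbh (G : SimpleGraph V) [DecidableRel G.Adj] :
    (nbh G).card ≤ G.maxDegree + 1 := by
  unfold nbh
  refine (Finset.card_insert_le _ _).trans ?_
  have := G.degree_le_maxDegree 0
  rw [SimpleGraph.card_neighborFinset_eq_degree]
  omega

/-- the cosets of an avoiding subgroup are colour classes -/
theorem col (h2 : Two V) {S : Set V} {G : SimpleGraph V} [DecidableRel G.Adj]
    (hG : ∀ x y, G.Adj x y ↔ x + y ∈ S) (W : AddSubgroup V) (hW : ∀ x ∈ W, x ∉ S) :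
    G.Colorable W.index := by
  classical
  have hfin : Fintype (V ⧸ W) := Fintype.ofFinite _
  let C : G.Coloring (V ⧸ W) := SimpleGraph.Coloring.mk (fun v => (QuotientAddGroup.mk v : V ⧸ W)) (by
    intro x y hxy heq
    have h1 : -x + y ∈ W := QuotientAddGroup.eq.1 heq
    rw [h2.neg] at h1
    exact hW _ h1 ((hG x y).1 hxy))
  have h1 := C.colorable
  rwa [AddSubgroup.index, Nat.card_eq_fintype_card]

theorem not_mem_of_mem {S : Set V} {G : SimpleGraph V} [DecidableRel G.Adj]
    (hG : ∀ x y, G.Adj x y ↔ x + y ∈ S) {W : AddSubgroup V} (hW : MaxAv (nbh G) W) :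
    ∀ x ∈ W, x ∉ S := by
  intro x hx hS
  have h1 := hW.av x ((mem_nbh hG x).2 (Or.inr hS)) hx
  rw [h1] at hS
  have h3 : G.Adj 0 0 := (hG 0 0).2 (by rwa [add_zero])
  exact G.loopless.irrefl 0 h3

theorem adj_of {S : Set V} {G : SimpleGraph V} [DecidableRel G.Adj] (h2 : Two V)
    (hG : ∀ x y, G.Adj x y ↔ x + y ∈ S) {s t : V} (hst : s ≠ t) (h : s + t ∈ nbh G) :
    G.Adj s t := by
  rw [hG]
  rcases (mem_nbh hG _).1 h with h | h
  · exact absurd (h2.eq_of_add h) hst
  · exact h

/-- **Main bound.** -/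
theorem main1 (h2 : Two V) {S : Set V} {G : SimpleGraph V} [DecidableRel G.Adj]
    (hG : ∀ x y, G.Adj x y ↔ x + y ∈ S) (W : AddSubgroup V) (hW : MaxAv (nbh G) W) :
    3 * W.index ≤ 2 * (G.maxDegree + 1) ∨ 2 * W.index ≤ G.cliqueNum + G.maxDegree + 1 := by
  have h0 : (0 : V) ∈ nbh G := (mem_nbh hG 0).2 (Or.inl rfl)
  have hc := card_nbh G
  by_cases h : ∃ (W : AddSubgroup V) (s t : V), Conf (nbh G) W s t
  · left
    have := many h2 (nbh G) h0 h W hW
    omega
  · right
    have h1 := countA h2 (nbh G) h0 hW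
    have hcl : G.IsClique (CC (nbh G) W : Set V) := by
      intro s hs t ht hst
      rw [Finset.mem_coe, mem_CC] at hs ht
      apply adj_of h2 hG hst
      by_contra hno
      exact h ⟨W, s, t, hW, hs, ht, hno⟩
    have h3 := hcl.card_le_cliqueNum
    omega

/-- **Triangle free graphs.** -/
theorem main2 (h2 : Two V) {S : Set V} {G : SimpleGraph V} [DecidableRel G.Adj]
    (hG : ∀ x y, G.Adj x y ↔ x + y ∈ S) (W : AddSubgroup V) (hW : MaxAv (nbh G) W)
    (hω : G.cliqueNum ≤ 2) : 2 * W.index ≤ G.cliqueNum + G.maxDegree + 1 := by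
  have h0 : (0 : V) ∈ nbh G := (mem_nbh hG 0).2 (Or.inl rfl)
  have hc := card_nbh G
  have h1 := countA h2 (nbh G) h0 hW
  by_cases hle : (CC (nbh G) W).card ≤ G.cliqueNum
  · omega
  · have hω1 : 1 ≤ G.cliqueNum := by
      have hcl : G.IsClique (({0} : Finset V) : Set V) := by simp
      have := hcl.card_le_cliqueNum
      simpa using this
    obtain ⟨c, hcC, hc0⟩ := Finset.exists_mem_ne (by omega : 1 < (CC (nbh G) W).card) (0 : V)
    have hadj0 : ∀ s ∈ CC (nbh G) W, s ≠ 0 → G.Adj 0 s := by
      intro s hs hs0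
      apply adj_of h2 hG (Ne.symm hs0)
      rw [zero_add]
      exact ((mem_CC _ _ _).1 hs).1
    have hω2 : 2 ≤ G.cliqueNum := by
      have hcl : G.IsClique (({0, c} : Finset V) : Set V) := by
        simp only [Finset.coe_insert, Finset.coe_singleton]
        rw [SimpleGraph.isClique_pair]
        intro _
        exact hadj0 c hcC hc0
      have := hcl.card_le_cliqueNum
      rwa [Finset.card_pair (Ne.symm hc0)] at this
    have h3 := countB h2 (nbh G) h0 hW (by
      intro s hs t ht hs0 ht0 hst hmem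
      have h4 : G.Adj s t := adj_of h2 hG hst hmem
      have hcl : G.IsClique (({0, s, t} : Finset V) : Set V) := by
        intro x hx y hy hxy
        simp only [Finset.coe_insert, Finset.coe_singleton, Set.mem_insert_iff,
          Set.mem_singleton_iff] at hx hy
        rcases hx with rfl | rfl | rfl <;> rcases hy with rfl | rfl | rfl
        · exact absurd rfl hxy
        · exact hadj0 _ hs hs0
        · exact hadj0 _ ht ht0
        · exact (hadj0 _ hs hs0).symm
        · exact absurd rfl hxy
        · exact h4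
        · exact (hadj0 _ ht ht0).symm
        · exact h4.symm
        · exact absurd rfl hxy
      have h5 := hcl.card_le_cliqueNum
      rw [Finset.card_eq_three.2 ⟨0, s, t, Ne.symm hs0, Ne.symm ht0, hst, rfl⟩] at h5
      omega) (by omega)
    omega

end Pool.Agent.Lib.MP_b63a06_co
end
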